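import Pool.Agent.FS.IdIso.Count

/-! Idempotent models all of whose translations are affine maps of an abelian group. -/

namespace Pool.Agent.FS.IdSol

open Pool.Agent.FS.IdIso

theorem sub3 {G : Type} [AddCommGroup G] [Finite G] (p : ℕ) [Fact p.Prime]
    (hroot : ¬ ∃ a : ℤ, (p : ℤ) ∣ a ^ 3 - a ^ 2 + 1) (A : G →+ G) (K : AddSubgroup G)
    (hK : ∀ x ∈ K, A x ∈ K) (h : ∀ x ∈ K, A (A (A x)) - A (A x) + x = 0) :
    3 ∣ (Nat.card K).factorization p := by
  refine coreI p hroot _ K rfl (fun k => ⟨A k, hK _ k.2⟩) (fun k => ⟨k - A k, sub_mem k.2 (hK _ k.2)⟩)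
    (fun x y => Subtype.ext ?_) (fun x => Subtype.ext (by simp))
  have h1 := h _ x.2
  have h2 := h _ y.2
  simp only [AddSubgroup.coe_add, map_add, map_sub]
  rw [← sub_eq_zero, ← sub_self (0 : G)]
  nth_rewrite 1 [← h2]
  rw [← h1]
  abel

theorem biaff {G : Type} [AddCommGroup G] [Finite G] (p : ℕ) [Fact p.Prime]
    (hroot : ¬ ∃ a : ℤ, (p : ℤ) ∣ a ^ 3 - a ^ 2 + 1) (op : G → G → G)
    (hR : ∀ y a b, op (a + b) y + op 0 y = op a y + op b y)
    (hL : ∀ y a b, op y (a + b) + op y 0 = op y a + op y b)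
    (hE : ∀ x y, op (op (op y x) y) y = x) (hI : ∀ x, op x x = x) :
    3 ∣ (Nat.card G).factorization p := by
  let M : G → G →+ G := fun y => AddMonoidHom.mk' (fun x => op x y - op 0 y) fun a b => by
    rw [eq_sub_of_add_eq (hR y a b)]; abel
  let N : G → G →+ G := fun y => AddMonoidHom.mk' (fun x => op y x - op y 0) fun a b => by
    rw [eq_sub_of_add_eq (hL y a b)]; abel
  have hM : ∀ y x, op x y = M y x + op 0 y := fun y x => (sub_add_cancel _ _).symm
  have hN : ∀ y x, op y x = N y x + op y 0 := fun y x => (sub_add_cancel _ _).symm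
  have MMN : ∀ y x, M y (M y (N y x)) = x := by
    intro y x
    have h1 := hE x y
    have h0 := hE 0 y
    rw [hM y, hM y (op y _), map_add] at h1 h0
    rw [hN y x, map_add, map_add, add_assoc, add_assoc, ← add_assoc (M y (M y (op y 0))), h0,
      add_zero] at h1
    exact h1
  have Minj : ∀ y, Function.Injective (M y) := fun y =>
    Finite.injective_iff_surjective.2 fun x => ⟨_, MMN y x⟩
  have a0 : ∀ x, op x 0 = M 0 x := fun x => by rw [hM, hI, add_zero]
  have b0 : ∀ x, op 0 x = N 0 x := fun x => by rw [hN, hI, add_zero]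
  obtain ⟨α, hα⟩ : ∃ α, α = M 0 := ⟨_, rfl⟩
  obtain ⟨β, hβ⟩ : ∃ β, β = N 0 := ⟨_, rfl⟩
  rw [← hα] at a0
  rw [← hβ] at b0
  obtain ⟨B, hB⟩ : ∃ B : G → G → G, ∀ x y, B x y = M y x - α x := ⟨_, fun _ _ => rfl⟩
  have hB' : ∀ x y, B x y = N x y - β y := fun x y => by
    have := (hM y x).symm.trans (hN x y)
    rw [a0, b0] at this
    rw [hB, eq_sub_of_add_eq this]; abel
  have B1 : ∀ a b y, B (a + b) y = B a y + B b y := fun a b y => by
    simp only [hB, map_add]; abel
  have B2 : ∀ x a b, B x (a + b) = B x a + B x b := fun x a b => by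
    simp only [hB', map_add]; abel
  obtain ⟨δ, hδ⟩ : ∃ δ : G →+ G, ∀ x, δ x = x - α x - β x :=
    ⟨AddMonoidHom.id G - α - β, fun _ => rfl⟩
  have Bd : ∀ x, B x x = δ x := fun x => by
    have := (hM x x).symm.trans (hI x)
    rw [b0] at this
    rw [hB, hδ, eq_sub_of_add_eq this]; abel
  have anti : ∀ x y, B x y = -B y x := fun x y => by
    have := Bd (x + y)
    rw [B1, B2, B2, Bd, Bd, map_add] at this
    rw [eq_neg_iff_add_eq_zero, ← sub_self (δ x + δ y)]
    nth_rewrite 1 [← this]
    abel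
  have hNM : ∀ y x, N y x = x - δ x - M y x := fun y x => by
    rw [eq_add_of_sub_eq (hB' y x).symm, anti, hB, hδ]; abel
  have cM : ∀ y x, δ (M y x) = M y (δ x) := by
    intro y x
    have h1 : N y (M y x) = M y (N y x) := Minj y (Minj y (by rw [MMN, MMN]))
    rw [hNM, hNM, map_sub, map_sub, sub_left_inj, sub_right_inj] at h1
    exact h1
  have cα : ∀ x, δ (α x) = α (δ x) := fun x => by rw [hα]; exact cM 0 x
  have cB1 : ∀ x y, B (δ x) y = δ (B x y) := fun x y => by rw [hB, hB, map_sub, cM, cα]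
  have cB2 : ∀ x y, B x (δ y) = δ (B x y) := fun x y => by
    rw [anti, cB1, anti x y, map_neg]
  have two : ∀ w, δ w = w → -w = w := fun w h => by
    have := anti w w
    rw [Bd, h] at this
    exact this.symm
  have quad : ∀ y w, δ w = w → M y (M y w) + M y w + w = 0 := by
    intro y w h
    have h3 : M y (M y (M y w)) = w := by
      have := MMN y w
      rw [hNM, h, sub_self, zero_sub, map_neg, map_neg, neg_eq_iff_eq_neg, two w h] at this
      exact this
    obtain ⟨u, hu⟩ : ∃ u, u = M y (M y w) + M y w + w := ⟨_, rfl⟩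
    have h4 : M y u = u := by rw [hu, map_add, map_add, h3]; abel
    have h5 : op (y + u) y = op (y + u) (y + u) := by
      rw [hI, hM, map_add, h4, add_right_comm, ← hM, hI]
    have h6 : y = y + u := (hE y (y + u)).symm.trans (by rw [h5]; exact hE _ _)
    rw [← hu]
    exact left_eq_add.1 h6
  have e2 : ∀ y, δ y = y → B (α y) y = α y := by
    intro y h
    have i1 := quad 0 y h
    have i2 := quad y y h
    rw [← hα] at i1
    have m1 : ∀ x, M y x = B x y + α x := fun x => by rw [hB]; abel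
    rw [m1 y, Bd, h, map_add, m1 y, Bd, h, m1] at i2
    have t1 := two y h
    have t2 := two (α y) (by rw [cα, h])
    have t3 : y + y = 0 := add_eq_zero_iff_neg_eq.2 t1
    have t4 : α y + α y = 0 := add_eq_zero_iff_neg_eq.2 t2
    linear_combination (norm := abel) i2 - i1 - t3 - t4
  have W0 : ∀ y, δ y = y → y = 0 := by
    intro y h
    have i1 := quad 0 y h
    rw [← hα] at i1
    have h1 := e2 y h
    have h2 := e2 (α y + y) (by rw [map_add, cα, h])
    have h3 : α (α y + y) = y := by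
      rw [map_add, eq_neg_of_add_eq_zero_left i1, two y h]
    rw [h3, B2, Bd, h, add_eq_right, anti, h1, neg_eq_zero] at h2
    rw [h2, map_zero, zero_add, zero_add] at i1
    exact i1
  have dd : ∀ x, δ (δ x) = 0 := fun x => W0 _ (by
    have := Bd (δ x)
    rw [cB1, cB2, Bd] at this
    exact this)
  have cub : ∀ x, δ x = 0 → α (α (α x)) - α (α x) + x = 0 := by
    intro x h
    have := MMN 0 x
    rw [hNM, h, sub_zero, ← hα, map_sub, map_sub] at this
    nth_rewrite 3 [← this]
    abel
  have k1 := sub3 p hroot α δ.ker (fun x hx => by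
    rw [AddMonoidHom.mem_ker] at hx ⊢
    rw [cα, hx, map_zero]) fun x hx => cub x hx
  have k2 := sub3 p hroot α δ.range (by
    rintro _ ⟨x, rfl⟩
    exact ⟨α x, cα x⟩) (by
    rintro _ ⟨x, rfl⟩
    exact cub _ (dd x))
  rw [δ.ker.card_eq_card_quotient_mul_card_addSubgroup,
    Nat.card_congr (QuotientAddGroup.quotientKerEquivRange δ).toEquiv,
    Nat.factorization_mul Nat.card_pos.ne' Nat.card_pos.ne', Finsupp.add_apply]
  exact dvd_add k2 k1

end Pool.Agent.FS.IdSol
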