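import Pool.Agent.FS.IdIso.Struct

/-! A model isotopic to an abelian group has a solvable multiplication group. -/

namespace Pool.Agent.FS.IdSol

open Equiv Pool.Agent.FS.AbIso Pool.Agent.FS.IdIso
open scoped commutatorElement

theorem solv_of_iso {G : Type} [AddCommGroup G] [Finite G] (f g : G → G)
    (hE : ∀ x y, f (f (f y + g x) + g y) + g y = x) :
    ∃ Γ : Subgroup (Perm G), Group.IsSolvable Γ ∧
      ∀ a, (∃ σ ∈ Γ, ∀ x, σ x = f a + g x) ∧ ∃ σ ∈ Γ, ∀ x, σ x = f x + g a := by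
  have hg : Function.Bijective g := Finite.injective_iff_bijective.1 fun x x' h => by
    rw [← hE x 0, h, hE]
  have hf : Function.Bijective f := Finite.surjective_iff_bijective.1 fun z =>
    ⟨_, add_right_cancel (hE (z + g 0) 0)⟩
  obtain ⟨T, hT⟩ : ∃ T : Perm G, ∀ x, T x = f x + g 0 :=
    ⟨tr (g 0) * Equiv.ofBijective f hf, fun x => rfl⟩
  have hfT : ∀ x, f x = T x - g 0 := fun x => by rw [hT]; abel
  have hgT : ∀ x, g x = T⁻¹ (T⁻¹ x) - f 0 := fun x => by
    have : T⁻¹ (T⁻¹ x) = f 0 + g x := by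
      rw [Perm.inv_eq_iff_eq, Perm.inv_eq_iff_eq, hT, hT, hE]
    rw [this]; abel
  have hUy : ∀ y, T * tr (f y - f 0) * T⁻¹ =
      tr (g 0 - g y) * (T⁻¹ * tr (g 0 - g y) * T) := by
    intro y
    ext x
    simp only [Perm.mul_apply, tr_apply]
    have h := hE (T x) y
    have e1 : f y + g (T x) = T⁻¹ x + (f y - f 0) := by
      rw [hgT]; simp only [Perm.coe_inv, Equiv.symm_apply_apply]; abel
    rw [e1] at h
    have e2 : T⁻¹ (T x + (g 0 - g y)) = f (T⁻¹ x + (f y - f 0)) + g y := by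
      rw [Perm.inv_eq_iff_eq, hT (f _ + g y), ← h]; abel
    rw [e2, hT]; abel
  obtain ⟨H, trH, vH, formH, nT, nT', comm⟩ := exists_H2 T
    (fun a => by
      obtain ⟨y, hy⟩ := hf.2 (a + f 0)
      exact ⟨g 0 - g y, by rw [← hUy y, hy, add_sub_cancel_right]⟩)
    (fun b => by
      obtain ⟨y, hy⟩ := hg.2 (g 0 - b)
      exact ⟨f y - f 0, by rw [hUy y, hy, sub_sub_cancel]⟩)
  have nk : ∀ k : ℤ, Nm (T ^ k) H := by
    intro k
    induction k using Int.induction_on with
    | zero => intro h hh; simpa using hh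
    | succ k ih =>
      intro h hh
      have := ih _ (nT h hh)
      rw [zpow_add_one]
      convert this using 1
      group
    | pred k ih =>
      intro h hh
      have := ih _ (nT' h hh)
      rw [zpow_sub_one]
      convert this using 1
      group
  let Γ : Subgroup (Perm G) :=
    { carrier := {σ | ∃ h ∈ H, ∃ k : ℤ, σ = h * T ^ k}
      one_mem' := ⟨1, one_mem _, 0, by simp⟩
      mul_mem' := by
        rintro _ _ ⟨h, hh, k, rfl⟩ ⟨h', hh', l, rfl⟩
        exact ⟨_, mul_mem hh (nk k h' hh'), k + l, by group⟩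
      inv_mem' := by
        rintro _ ⟨h, hh, k, rfl⟩
        exact ⟨_, nk (-k) _ (inv_mem hh), -k, by group⟩ }
  have d1 : ⁅Γ, Γ⁆ ≤ H := by
    rw [Subgroup.commutator_le]
    rintro _ ⟨h, hh, k, rfl⟩ _ ⟨h', hh', l, rfl⟩
    have := mul_mem (mul_mem (mul_mem hh (nk k h' hh')) (nk l _ (inv_mem hh))) (inv_mem hh')
    convert this using 1
    rw [commutatorElement_def]
    group
  refine ⟨Γ, ⟨⟨3, ?_⟩⟩, fun a => ⟨⟨tr (f a - f 0) * T ^ (-2 : ℤ), ⟨_, trH _, _, rfl⟩, fun x => ?_⟩,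
    tr (g a - g 0) * T ^ (1 : ℤ), ⟨_, trH _, _, rfl⟩, fun x => ?_⟩⟩
  · have e0 : (derivedSeries Γ 0).map Γ.subtype ≤ Γ := Subgroup.map_subtype_le _
    have e1 : (derivedSeries Γ 1).map Γ.subtype ≤ H := by
      rw [derivedSeries_succ, Subgroup.map_commutator]
      exact (Subgroup.commutator_mono e0 e0).trans d1
    have e2 : (derivedSeries Γ 2).map Γ.subtype ≤ ⁅H, H⁆ := by
      rw [derivedSeries_succ, Subgroup.map_commutator]
      exact Subgroup.commutator_mono e1 e1
    rw [← Subgroup.map_eq_bot_iff_of_injective _ Γ.subtype_injective, derivedSeries_succ,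
      Subgroup.map_commutator, eq_bot_iff, Subgroup.commutator_le]
    intro x hx y hy
    exact commutatorElement_eq_one_iff_mul_comm.2 (comm x (e2 hx) y (e2 hy))
  · have : T ^ (-2 : ℤ) = T⁻¹ * T⁻¹ := by group
    rw [this, Perm.mul_apply, Perm.mul_apply, tr_apply, hgT]; abel
  · rw [zpow_one, Perm.mul_apply, tr_apply, hT]; abel

end Pool.Agent.FS.IdSol
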