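import Pool.Agent.FS.IdSol.BiAff

/-! Idempotent models whose translations lie in a solvable group. -/

namespace Pool.Agent.FS.IdSol

open Equiv
open scoped commutatorElement

theorem coreS (p : ℕ) [Fact p.Prime] (hroot : ¬ ∃ a : ℤ, (p : ℤ) ∣ a ^ 3 - a ^ 2 + 1) (n : ℕ) :
    ∀ (Q : Type) [Finite Q] (Δ : Type) [Group Δ] [Group.IsSolvable Δ] (ρ : Δ →* Perm Q),
      Nat.card Q = n → ∀ op : Q → Q → Q, (∀ y, ∃ d, ∀ x, ρ d x = op x y) →
        (∀ x y, op (op (op y x) y) y = x) → (∀ x, op x x = x) → 3 ∣ n.factorization p := by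
  classical
  induction n using Nat.strong_induction_on with
  | _ n ih =>
  intro Q _ Δ _ _ ρ hn op hρ hE hI
  have Rinj : ∀ y a b, op a y = op b y → a = b := fun y a b h => by
    obtain ⟨d, hd⟩ := hρ y
    exact (ρ d).injective (by rw [hd, hd, h])
  have Linj : ∀ y, Function.Injective (op y) := fun y a b h => by rw [← hE a y, h, hE]
  have hL : ∀ y d, (∀ x, ρ d x = op x y) → ∀ x, op y x = ρ (d⁻¹ * d⁻¹) x := by
    intro y d hd x
    rw [map_mul, map_inv, Perm.mul_apply, Perm.eq_inv_iff_eq, Perm.eq_inv_iff_eq, hd, hd, hE]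
  have hex : ∃ j, derivedSeries Δ j ≤ ρ.ker := by
    obtain ⟨j, hj⟩ := Group.IsSolvable.solvable (G := Δ)
    exact ⟨j, hj ▸ bot_le⟩
  obtain h0 | ⟨i, hi⟩ := Nat.eq_zero_or_eq_succ_pred (Nat.find hex) |>.imp_right
    fun h => (⟨_, h⟩ : ∃ i, Nat.find hex = i + 1)
  · have h1 := Nat.find_spec hex
    rw [h0] at h1
    have h2 : ∀ x y, op x y = x := fun x y => by
      obtain ⟨d, hd⟩ := hρ y
      rw [← hd, (h1 (Subgroup.mem_top d) : ρ d = 1)]; rfl
    have : Subsingleton Q := ⟨fun a b => by rw [← hE a b, h2, h2, h2]⟩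
    have h3 : n ≤ 1 := hn ▸ Finite.card_le_one_iff_subsingleton.2 this
    interval_cases n <;> simp
  have h1 : ⁅derivedSeries Δ i, derivedSeries Δ i⁆ ≤ ρ.ker := by
    have := Nat.find_spec hex
    rwa [hi] at this
  have h2 : ¬ derivedSeries Δ i ≤ ρ.ker := Nat.find_min hex (by omega)
  have hA : (derivedSeries Δ i).Normal := derivedSeries_normal Δ i
  generalize derivedSeries Δ i = A at h1 h2 hA
  have comm : ∀ a ∈ A, ∀ b ∈ A, ρ a * ρ b = ρ b * ρ a := fun a ha b hb => by
    have : ρ ⁅a, b⁆ = 1 := h1 (Subgroup.commutator_mem_commutator ha hb)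
    rw [map_commutatorElement] at this
    exact commutatorElement_eq_one_iff_mul_comm.1 this
  obtain ⟨a0, ha0, hne⟩ := SetLike.not_le_iff_exists.1 h2
  obtain ⟨x0, hx0⟩ : ∃ x0, ρ a0 x0 ≠ x0 := by
    by_contra hc
    push Not at hc
    exact hne (Perm.ext hc)
  let s : Setoid Q := ⟨fun x y => ∃ a ∈ A, ρ a x = y,
    ⟨fun x => ⟨1, one_mem _, by simp⟩,
      fun ⟨a, ha, e⟩ => ⟨a⁻¹, inv_mem ha, by rw [← e]; simp⟩,
      fun ⟨a, ha, e⟩ ⟨b, hb, e'⟩ => ⟨b * a, mul_mem hb ha, by rw [map_mul, Perm.mul_apply, e, e']⟩⟩⟩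
  have inv1 : ∀ d x y, s x y → s (ρ d x) (ρ d y) := fun d x y ⟨a, ha, e⟩ =>
    ⟨d * a * d⁻¹, hA.conj_mem a ha d, by simp [e]⟩
  have inv2 : ∀ d x y, s x y ↔ s (ρ d x) (ρ d y) := fun d x y =>
    ⟨inv1 d x y, fun h => by simpa using inv1 d⁻¹ _ _ h⟩
  have cR : ∀ y a b, s a b → s (op a y) (op b y) := fun y a b h => by
    obtain ⟨d, hd⟩ := hρ y
    rw [← hd, ← hd]; exact inv1 d _ _ h
  have cL : ∀ y a b, s a b → s (op y a) (op y b) := fun y a b h => by
    obtain ⟨d, hd⟩ := hρ y
    rw [hL y d hd, hL y d hd]; exact inv1 _ _ _ h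
  by_cases htr : ∀ x, s x0 x
  · let C : Subgroup (Perm Q) := A.map ρ
    have cC : ∀ a b : C, a * b = b * a := by
      rintro ⟨_, a, ha, rfl⟩ ⟨_, b, hb, rfl⟩
      exact Subtype.ext (comm a ha b hb)
    let _ : CommGroup C := { (inferInstance : Group C) with mul_comm := cC }
    have hb : Function.Bijective fun c : Additive C => (c.toMul : Perm Q) x0 := by
      constructor
      · intro a b h
        apply Additive.toMul.injective
        apply Subtype.ext
        ext x
        obtain ⟨c, hc, rfl⟩ := htr x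
        have e1 := congrArg (fun t : C => (t : Perm Q) x0) (cC a.toMul ⟨_, c, hc, rfl⟩)
        have e2 := congrArg (fun t : C => (t : Perm Q) x0) (cC b.toMul ⟨_, c, hc, rfl⟩)
        simp only [Subgroup.coe_mul, Perm.mul_apply] at e1 e2 h
        rw [e1, e2, h]
      · intro x
        obtain ⟨c, hc, rfl⟩ := htr x
        exact ⟨Additive.ofMul ⟨_, c, hc, rfl⟩, rfl⟩
    let e : Additive C ≃ Q := Equiv.ofBijective _ hb
    have he : ∀ c, e c = (c.toMul : Perm Q) x0 := fun c => rfl
    have aff : ∀ d a b, e.symm (ρ d (e (a + b))) + e.symm (ρ d (e 0)) =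
        e.symm (ρ d (e a)) + e.symm (ρ d (e b)) := by
      intro d
      let κ : Additive C → Additive C := fun a => Additive.ofMul
        ⟨ρ d * (a.toMul : Perm Q) * (ρ d)⁻¹, by
          obtain ⟨c, hc, h⟩ := a.toMul.2
          exact ⟨d * c * d⁻¹, hA.conj_mem c hc d, by rw [← h]; simp⟩⟩
      have k1 : ∀ a b, κ (a + b) = κ a + κ b := fun a b => by
        apply Additive.toMul.injective
        apply Subtype.ext
        simp [κ, mul_assoc]
      have k2 : ∀ a, e.symm (ρ d (e a)) = κ a + e.symm (ρ d x0) := fun a => by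
        rw [Equiv.symm_apply_eq, he (_ + _), toMul_add, Subgroup.coe_mul, Perm.mul_apply, ← he,
          Equiv.apply_symm_apply]
        simp [κ, he]
      have k0 : κ 0 = 0 := by simpa using k1 0 0
      intro a b
      rw [k2, k2, k2 a, k2 b, k1, k0]; abel
    rw [← hn, ← Nat.card_congr e]
    refine biaff p hroot (fun a b => e.symm (op (e a) (e b))) (fun y a b => ?_) (fun y a b => ?_)
      (fun x y => by simp [hE]) (fun x => by simp [hI])
    · obtain ⟨d, hd⟩ := hρ (e y)
      simp only [← hd]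
      exact aff d a b
    · obtain ⟨d, hd⟩ := hρ (e y)
      simp only [hL _ d hd]
      exact aff _ a b
  · push Not at htr
    obtain ⟨x1, hx1⟩ := htr
    have c2 : ∀ a b, s a b → ∀ u v, s u v → s (op a u) (op b v) := fun a b h u v h' =>
      s.trans (cR u a b h) (cL b u v h')
    let ρq : Δ →* Perm (Quotient s) := MonoidHom.mk' (fun d => Quotient.congr (ρ d) (inv2 d))
      fun a b => by
        ext x
        induction x using Quotient.inductionOn
        simp
    have a1 : Nat.card (Quotient s) < n → 3 ∣ (Nat.card (Quotient s)).factorization p := fun h =>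
      ih _ h (Quotient s) Δ ρq rfl (Quotient.map₂ op fun a b h u v h' => c2 a b h u v h')
        (fun y => by
          induction y using Quotient.inductionOn with | _ y => ?_
          obtain ⟨d, hd⟩ := hρ y
          refine ⟨d, fun x => ?_⟩
          induction x using Quotient.inductionOn with | _ x => ?_
          exact congrArg (Quotient.mk s) (hd x))
        (fun x y => by
          induction x using Quotient.inductionOn with | _ x => ?_
          induction y using Quotient.inductionOn with | _ y => ?_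
          exact congrArg (Quotient.mk s) (hE x y))
        (fun x => by
          induction x using Quotient.inductionOn with | _ x => ?_
          exact congrArg (Quotient.mk s) (hI x))
    let D : Subgroup Δ :=
      { carrier := {d | s (ρ d x0) x0}
        one_mem' := by simp
        mul_mem' := fun {a b} ha hb => by
          change s (ρ (a * b) x0) x0
          rw [map_mul, Perm.mul_apply]
          exact s.trans (inv1 a _ _ hb) ha
        inv_mem' := fun {a} ha => by
          change s (ρ a⁻¹ x0) x0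
          have := inv1 a⁻¹ _ _ ha
          exact s.symm (by simpa using this) }
    have pD : ∀ (d : D) x, s (ρ d x) x0 ↔ s x x0 := fun d x =>
      ⟨fun h => (inv2 d x x0).2 (s.trans h (s.symm d.2)), fun h => s.trans (inv1 d _ _ h) d.2⟩
    let ρb : D →* Perm {x // s x x0} := MonoidHom.mk' (fun d => (ρ d).subtypePerm (pD d))
      fun a b => by
        ext x
        change ((ρ (a * b : Δ) x : Q) : Q) = ρ a (ρ b x)
        rw [map_mul]; rfl
    have cl : ∀ a b, s a x0 → s b x0 → s (op a b) x0 := fun a b ha hb => by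
      simpa [hI] using c2 a x0 ha b x0 hb
    have a2 : Nat.card {x // s x x0} < n → 3 ∣ (Nat.card {x // s x x0}).factorization p := fun h =>
      ih _ h {x // s x x0} D ρb rfl (fun a b => ⟨op a b, cl _ _ a.2 b.2⟩)
        (fun y => by
          obtain ⟨d, hd⟩ := hρ y
          exact ⟨⟨d, by
            change s (ρ d x0) x0
            rw [hd]; exact cl _ _ (s.refl _) y.2⟩, fun x => Subtype.ext (hd x)⟩)
        (fun x y => Subtype.ext (hE x y)) (fun x => Subtype.ext (hI x))
    choose t ht using fun q : Quotient s =>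
      Finite.injective_iff_surjective.1 (Linj x0) q.out
    have hq : ∀ (q : Quotient s) b, s b x0 → Quotient.mk s (op b (t q)) = q := fun q b hb => by
      rw [Quotient.sound (cR (t q) b x0 hb), ht, Quotient.out_eq]
    have hc : Nat.card (Quotient s) * Nat.card {x // s x x0} = n := by
      rw [← Nat.card_prod, ← hn]
      refine Nat.card_congr (Equiv.ofBijective (fun z => op z.2 (t z.1)) ⟨?_, fun z => ?_⟩)
      · rintro ⟨q, b⟩ ⟨q', b'⟩ h
        have : q = q' := by rw [← hq q b b.2, ← hq q' b' b'.2]; exact congrArg _ h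
        subst this
        exact Prod.ext rfl (Subtype.ext (Rinj _ _ _ h))
      · obtain ⟨d, hd⟩ := hρ (t (Quotient.mk s z))
        refine ⟨⟨Quotient.mk s z, (ρ d)⁻¹ z, (inv2 d _ _).2 ?_⟩, ?_⟩
        · rw [hd x0, ht]
          simpa using s.symm (Quotient.mk_out z)
        · simp [← hd]
    have n1 : 1 < Nat.card (Quotient s) := Finite.one_lt_card_iff_nontrivial.2
      ⟨⟨Quotient.mk s x0, Quotient.mk s x1, fun h => hx1 (Quotient.exact h)⟩⟩
    have n2 : 1 < Nat.card {x // s x x0} := Finite.one_lt_card_iff_nontrivial.2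
      ⟨⟨⟨ρ a0 x0, s.symm ⟨a0, ha0, rfl⟩⟩, ⟨x0, s.refl _⟩, fun h => hx0 (congrArg Subtype.val h)⟩⟩
    have b1 := a1 (by rw [← hc]; nlinarith)
    have b2 := a2 (by rw [← hc]; nlinarith)
    rw [← hc, Nat.factorization_mul (by omega) (by omega), Finsupp.add_apply]
    exact dvd_add b1 b2

end Pool.Agent.FS.IdSol
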